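import Pool.Agent.V1172.MIP.Main

/-!
# The modular isomorphism problem over all fields when `D₃(G) = 1`, for all odd primes

`D_n(G) = ∏_{i p^j ≥ n} ℧_j(γ_i(G))` is the `n`-th dimension subgroup.
-/

namespace Pool.Agent.Results.MP_8bb7de_al.OddPrimes

universe u v w

open scoped commutatorElement

/-- `γ_i(G)` for `i ≥ 1`: `γ_1(G) = G`, `γ_{i+1}(G) = [γ_i(G), G]`. -/
def gam (G : Type*) [Group G] : ℕ → Subgroup G
  | 0 => ⊤
  | 1 => ⊤
  | (i + 2) => ⁅gam G (i + 1), ⊤⁆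

/-- `℧_j(K) = ⟨k ^ (p ^ j) : k ∈ K⟩`. -/
def agemo {G : Type*} [Group G] (p j : ℕ) (K : Subgroup G) : Subgroup G :=
  Subgroup.closure {x | ∃ k ∈ K, x = k ^ (p ^ j)}

/-- `D_n(G) = ∏_{i p^j ≥ n, i ≥ 1} ℧_j(γ_i(G))`. -/
def dimSub (p n : ℕ) (G : Type*) [Group G] : Subgroup G :=
  Subgroup.closure {x | ∃ i j : ℕ, 1 ≤ i ∧ n ≤ i * p ^ j ∧ x ∈ agemo p j (gam G i)}

lemma nice_of {p : ℕ} (hp : p.Prime) (hp2 : p ≠ 2) {G : Type*} [Group G]
    (hD : dimSub p 3 G = ⊥) : Pool.Agent.V1172.MIP.Nice p G := by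
  have hp3 : 3 ≤ p := by
    have := hp.two_le
    omega
  have hmem : ∀ i j : ℕ, 1 ≤ i → 3 ≤ i * p ^ j → ∀ x ∈ agemo p j (gam G i), x = 1 := by
    intro i j hi hij x hx
    have h1 : x ∈ dimSub p 3 G := Subgroup.subset_closure ⟨i, j, hi, hij, hx⟩
    rw [hD, Subgroup.mem_bot] at h1
    exact h1
  refine ⟨?_, ?_⟩
  · intro g h l
    have h2 : ⁅⁅g, h⁆, l⁆ ∈ gam G 3 :=
      Subgroup.commutator_mem_commutator
        (Subgroup.commutator_mem_commutator (Subgroup.mem_top g) (Subgroup.mem_top h))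
        (Subgroup.mem_top l)
    have h3 := hmem 3 0 (by norm_num) (by norm_num) (⁅⁅g, h⁆, l⁆)
      (Subgroup.subset_closure ⟨_, h2, by simp⟩)
    rw [commutatorElement_eq_one_iff_mul_comm, commutatorElement_def] at h3
    exact h3
  · intro g
    refine hmem 1 1 le_rfl (by simpa using hp3) _ (Subgroup.subset_closure ⟨g, ?_, by simp⟩)
    exact Subgroup.mem_top g

/-- Let `p` be an odd prime, `G` a finite group with `D₃(G) = 1`, `F` any field of characteristic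
`p` and `H` any group.  If `FG ≅ FH` as `F`-algebras then `G ≅ H`. -/
theorem result {p : ℕ} (hp : p.Prime) (hp2 : p ≠ 2) {G : Type u} [Group G] [Finite G]
    (hD : dimSub p 3 G = ⊥) (F : Type v) [Field F] [CharP F p] (H : Type w) [Group H]
    (hiso : Nonempty (MonoidAlgebra F G ≃ₐ[F] MonoidAlgebra F H)) : Nonempty (G ≃* H) := by
  have : Fact p.Prime := ⟨hp⟩
  obtain ⟨θ⟩ := hiso
  exact Pool.Agent.V1172.MIP.main hp2 (nice_of hp hp2 hD) θ

end Pool.Agent.Results.MP_8bb7de_al.OddPrimes
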